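import Mathlib

/-! Diagonals of separately absolutely continuous maps into metric spaces. -/

namespace Pool.Agent.Results.MP_680d10_gt.Yes

open Set Filter Topology
open scoped unitInterval

/-- absolutely continuous maps on `[0,1]` -/
def AC {Z : Type*} [MetricSpace Z] (h : I → Z) : Prop :=
  ∀ ε > (0 : ℝ), ∃ δ > (0 : ℝ), ∀ (n : ℕ) (a b : ℕ → I), (∀ k < n, a k < b k) →
    (∀ k, k + 1 < n → b k ≤ a (k + 1)) → ∑ k ∈ Finset.range n, ((b k : ℝ) - a k) < δ →
      ∑ k ∈ Finset.range n, dist (h (b k)) (h (a k)) < ε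

/-- absolute Baire-one maps on `[0,1]` -/
def AbsBaireOne {Z : Type*} [MetricSpace Z] (g : I → Z) : Prop :=
  ∃ G : ℕ → I → Z, (∀ n, Continuous (G n)) ∧ ∀ x, Tendsto (fun n => G n x) atTop (𝓝 (g x)) ∧
    Summable fun n => dist (G (n + 1) x) (G n x)

variable {Z : Type*} [MetricSpace Z]

theorem AC.cont {h : I → Z} (H : AC h) : Continuous h := by
  refine Metric.continuous_iff.2 fun x ε hε => ?_
  obtain ⟨δ, h1, h2⟩ := H ε hε
  have h3 : ∀ a b : I, a < b → dist b a < δ → dist (h b) (h a) < ε := fun a b hab hd => by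
    simpa using h2 1 (fun _ => a) (fun _ => b) (fun _ _ => hab) (fun _ hk => by omega)
      (by simpa using (le_abs_self _).trans_lt hd)
  refine ⟨δ, h1, fun y hy => ?_⟩
  rcases lt_trichotomy x y with h4 | rfl | h4
  · exact h3 _ _ h4 hy
  · simpa
  · rw [dist_comm] at hy ⊢
    exact h3 _ _ h4 hy

variable {F : ℝ → ℝ → Z} (h1 : ∀ y, Continuous (F · y)) (h2 : ∀ x, Continuous (F x))
include h1 h2

theorem loc {s t ε : ℝ} (hst : s < t) (hε : 0 < ε) (c d : ℝ) : ∃ u v, s < u ∧ u < v ∧ v < t ∧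
    ∀ x ∈ Icc u v, ∀ x' ∈ Icc u v, ∀ y ∈ Icc c d, dist (F x y) (F x' y) ≤ ε := by
  obtain ⟨a, ha, h3⟩ := (dense_iUnion_interior_of_closed (f := fun m : ℕ => {x | ∀ y ∈ Icc c d,
      ∀ z ∈ Icc c d, dist y z < 1 / (m + 1) → dist (F x y) (F x z) ≤ ε / 4}) (fun m => by
        simp only [ofPred_forall]
        exact isClosed_iInter fun y => isClosed_iInter fun _ => isClosed_iInter fun z =>
          isClosed_iInter fun _ => isClosed_iInter fun _ =>
            isClosed_le ((h1 y).dist (h1 z)) continuous_const)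
    (eq_univ_of_forall fun x => by
      obtain ⟨δ, h3, h4⟩ := Metric.uniformContinuousOn_iff.1
        (isCompact_Icc.uniformContinuousOn_of_continuous (s := Icc c d) (h2 x).continuousOn) (ε / 4)
        (by positivity)
      obtain ⟨m, hm⟩ := exists_nat_one_div_lt h3
      exact mem_iUnion.2 ⟨m, fun y hy z hz h => (h4 y hy z hz (h.trans hm)).le⟩)).exists_mem_open
    isOpen_Ioo (nonempty_Ioo.2 hst)
  obtain ⟨m, hm⟩ := mem_iUnion.1 ha
  obtain ⟨T, t1, t2, t3⟩ := finite_cover_balls_of_compact (isCompact_Icc (a := c) (b := d))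
    (Nat.one_div_pos_of_nat (n := m))
  have h4 : ∀ᶠ x in 𝓝 a, ∀ z ∈ T, dist (F x z) (F a z) < ε / 4 := (eventually_all_finite t2).2
    fun z _ => Metric.tendsto_nhds.1 ((h1 z).tendsto a) _ (by positivity)
  obtain ⟨u, v, -, h5, h6⟩ := exists_Icc_mem_subset_of_mem_nhds (inter_mem (inter_mem h4
    (mem_interior_iff_mem_nhds.1 hm)) (isOpen_Ioo.mem_nhds h3))
  rw [Icc_mem_nhds_iff] at h5
  have h7 := h5.1.trans h5.2
  refine ⟨u, v, (h6 ⟨le_rfl, h7.le⟩).2.1, h7, (h6 ⟨h7.le, le_rfl⟩).2.2, fun x hx x' hx' y hy => ?_⟩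
  obtain ⟨z, z1, z2⟩ := mem_iUnion₂.1 (t3 hy)
  linarith [dist_triangle4 (F x y) (F x z) (F a z) (F x' z), dist_triangle_right (F x y) (F x' y)
    (F x' z), (h6 hx).1.1 z z1, (h6 hx').1.1 z z1, (h6 hx).1.2 y hy z (t1 z1) z2,
    (h6 hx').1.2 y hy z (t1 z1) z2, dist_comm (F a z) (F x' z)]

theorem step {h ε : ℝ} (hh : 0 < h) (hε : 0 < ε) (k : ℕ) : ∃ g : ℝ → Z, Continuous g ∧
    (∀ x, k * h ≤ x → g x = F x (k * h - 2 * h)) ∧ ∀ x, 0 ≤ x → x ≤ k * h →
      ∃ y ∈ Icc (x - 3 * h) (x - h), dist (g x) (F x y) ≤ ε := by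
  induction k with
  | zero => exact ⟨_, h1 _, fun _ _ => rfl, fun x h3 h4 => ⟨_, by
      simp only [Nat.cast_zero, zero_mul] at h4 ⊢
      exact ⟨by linarith, by linarith⟩, (dist_self _).trans_le hε.le⟩⟩
  | succ k ih =>
    obtain ⟨g, g1, g2, g3⟩ := ih
    obtain ⟨u, v, u1, u2, u3, u4⟩ := loc h1 h2 (show k * h < k * h + h by linarith) hε
      (k * h - 2 * h) (k * h - h)
    have h0 := sub_pos.2 u2
    push_cast
    refine ⟨fun x => if x ≤ u then g x else if 2 * x ≤ u + v then
      F u (k * h - 2 * h + 2 * (x - u) / (v - u) * h) else F (min x (2 * x - v)) (k * h - h),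
      g1.if_le (Continuous.if_le ((h2 u).comp (by fun_prop)) ((h1 _).comp (by fun_prop))
        (by fun_prop) continuous_const fun x hx => ?_) continuous_id continuous_const
          fun x hx => ?_, fun x hx => ?_, fun x h3 h4 => ?_⟩
    · rw [show 2 * (x - u) = v - u by linarith, div_self h0.ne', min_eq_right (by linarith)]
      congr 1 <;> linarith
    · obtain rfl : x = u := hx
      rw [if_pos (by linarith), g2 x u1.le]
      simp
    · beta_reduce
      rw [if_neg (by linarith), if_neg (by linarith), min_eq_left (by linarith)]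
      congr 1
      ring
    · beta_reduce
      split_ifs with h5 h6
      · rcases le_total x (k * h) with h7 | h7
        · exact g3 x h3 h7
        · exact ⟨k * h - 2 * h, ⟨by linarith, by linarith⟩, by
            rw [g2 x h7, dist_self]
            exact hε.le⟩
      · have h7 : 0 ≤ 2 * (x - u) / (v - u) * h := mul_nonneg (div_nonneg (by linarith) h0.le) hh.le
        have h8 : 2 * (x - u) / (v - u) * h ≤ h :=
          mul_le_of_le_one_left hh.le ((div_le_one h0).2 (by linarith))
        exact ⟨_, ⟨by linarith, by linarith⟩, u4 u ⟨le_rfl, u2.le⟩ x ⟨by linarith, by linarith⟩ _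
          ⟨by linarith, by linarith⟩⟩
      · refine ⟨k * h - h, ⟨by linarith, by linarith⟩, ?_⟩
        rcases le_total x v with h7 | h7
        · rw [min_eq_right (by linarith)]
          exact u4 _ ⟨by linarith, by linarith⟩ x ⟨by linarith, h7⟩ _ ⟨by linarith, le_rfl⟩
        · rw [min_eq_left (by linarith), dist_self]
          exact hε.le

omit h1 h2 in
theorem result {Z : Type*} [MetricSpace Z] (f : I × I → Z) (h1 : ∀ y, AC fun x => f (x, y))
    (h2 : ∀ x, AC fun y => f (x, y)) : AbsBaireOne fun x => f (x, x) := by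
  let π : ℝ → I := projIcc 0 1 zero_le_one
  have hp : ∀ n : ℕ, (0 : ℝ) < (1 / 4) ^ n := fun n => by positivity
  choose g g1 _ g3 using fun n : ℕ => step (F := fun x y => f (π x, π y))
    (fun y => (h1 _).cont.comp continuous_projIcc) (fun x => (h2 _).cont.comp continuous_projIcc)
    (hp n) (hp n) (4 ^ n)
  refine ⟨fun n x => g n x, fun n => (g1 n).comp continuous_subtype_val, fun x => ?_⟩
  choose y y1 y2 using fun n => g3 n x x.2.1 (x.2.2.trans_eq (by simp))
  simp only [π, projIcc_val] at y2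
  have hs : Summable fun n : ℕ => (1 / 4 : ℝ) ^ n :=
    summable_geometric_of_lt_one (by norm_num) (by norm_num)
  have hy : Tendsto y atTop (𝓝 x) := tendsto_of_tendsto_of_tendsto_of_le_of_le
    (by simpa using (hs.tendsto_atTop_zero.const_mul 3).const_sub (x : ℝ)) tendsto_const_nhds
    (fun n => (y1 n).1) fun n => (y1 n).2.trans (sub_le_self _ (hp n).le)
  have hm : ∀ n, y n < y (n + 1) := fun n => by
    have := (y1 (n + 1)).1
    rw [pow_succ] at this
    linarith [(y1 n).2, hp n]
  have h3 : Summable fun n => dist (f (x, π (y (n + 1)))) (f (x, π (y n))) := by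
    rcases x.2.1.eq_or_lt with h0 | h0
    · have h4 : ∀ n, π (y n) = 0 := fun n => projIcc_of_le_left _ (by linarith [(y1 n).2, hp n])
      simp [h4, summable_zero]
    obtain ⟨δ, d1, d2⟩ := h2 x 1 one_pos
    obtain ⟨N, hN⟩ := eventually_atTop.1 ((hy.eventually_const_lt h0).and
      (hy.eventually_const_lt (sub_lt_self (x : ℝ) d1)))
    have h4 : ∀ n, y n < x := fun n => by linarith [(y1 n).2, hp n]
    have h5 : ∀ n, (π (y (n + N)) : ℝ) = y (n + N) := fun n => congrArg Subtype.val
      (projIcc_of_mem _ ⟨(hN _ (Nat.le_add_left _ _)).1.le, (h4 _).le.trans x.2.2⟩)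
    refine (summable_nat_add_iff N).1 (summable_of_sum_range_le (c := 1) (fun _ => dist_nonneg)
      fun n => (le_of_eq ?_).trans (d2 n (fun k => π (y (k + N))) (fun k => π (y (k + 1 + N)))
        (fun k _ => ?_) (fun _ _ => le_rfl) ?_).le)
    · simp only [add_right_comm _ N 1]
    · rw [← Subtype.coe_lt_coe, h5, h5, add_right_comm]
      exact hm _
    · simp only [h5]
      rw [Finset.sum_range_sub (fun k => y (k + N))]
      linarith [h4 (n + N), (hN (0 + N) (by simp)).2]
  refine ⟨tendsto_of_tendsto_of_dist (f₁ := fun n => f (x, π (y n))) ?_ (squeeze_zero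
    (fun _ => dist_nonneg) (fun n => (dist_comm _ _).trans_le (y2 n)) hs.tendsto_atTop_zero),
    Summable.of_nonneg_of_le (fun _ => dist_nonneg) (fun n => ?_)
      ((((summable_nat_add_iff 1).2 hs).add h3).add hs)⟩
  · simpa [π, Function.comp_def] using (((h2 x).cont.comp (continuous_projIcc (h := zero_le_one))).tendsto _).comp hy
  · exact (dist_triangle4 _ _ _ _).trans (add_le_add_three (y2 _) le_rfl
      ((dist_comm _ _).trans_le (y2 n)))

end Pool.Agent.Results.MP_680d10_gt.Yes
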